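import Pool.Agent.Helper58.SF.StC

/-!
# Module CLK of project SF (owner helper58): clocks for local semiflows
-/

set_option autoImplicit false

namespace Pool.Agent.Helper25.SF

open Set Topology Pool.Agent.Helper58.SF

/-- the window integral is continuous in the parameters -/
lemma clk_cont {Y : Type} [TopologicalSpace Y] [LocallyCompactSpace Y] (G : Y → ℝ → ℝ)
    (hG : Continuous (Function.uncurry G)) (τ : ℝ) :
    Continuous (fun p : Y × ℝ => ∫ σ in p.2..(p.2 + τ), G p.1 σ) := by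
  have hc : ∀ y, Continuous (G y) := fun y => hG.comp (Continuous.prodMk_right y)
  have h1 : Continuous (Function.uncurry (fun (p : Y × ℝ) (t : ℝ) => G p.1 t)) :=
    hG.comp ((continuous_fst.comp continuous_fst).prodMk continuous_snd)
  have h2 : Continuous (fun p : Y × ℝ => ∫ σ in (0 : ℝ)..(p.2 + τ), G p.1 σ) :=
    intervalIntegral.continuous_parametric_intervalIntegral_of_continuous h1
      (continuous_snd.add continuous_const)
  have h3 : Continuous (fun p : Y × ℝ => ∫ σ in (0 : ℝ)..p.2, G p.1 σ) :=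
    intervalIntegral.continuous_parametric_intervalIntegral_of_continuous h1 continuous_snd
  have h4 : (fun p : Y × ℝ => ∫ σ in p.2..(p.2 + τ), G p.1 σ) =
      fun p : Y × ℝ => (∫ σ in (0 : ℝ)..(p.2 + τ), G p.1 σ) - ∫ σ in (0 : ℝ)..p.2, G p.1 σ := by
    funext p
    rw [intervalIntegral.integral_interval_sub_left]
    · exact (hc p.1).intervalIntegrable _ _
    · exact (hc p.1).intervalIntegrable _ _
  rw [h4]
  exact h2.sub h3

/-- growth of the window integral -/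
lemma clk_grow {g : ℝ → ℝ} (hg : Continuous g) {τ d e : ℝ}
    (h : ∀ s, 0 ≤ s → s ≤ e → d ≤ g (s + τ) - g s) {s s' : ℝ} (h0 : 0 ≤ s) (h1 : s ≤ s') (h2 : s' ≤ e) :
    (s' - s) * d ≤ (∫ σ in s'..(s' + τ), g σ) - ∫ σ in s..(s + τ), g σ := by
  have hi : ∀ a b, IntervalIntegrable g MeasureTheory.volume a b := fun a b => hg.intervalIntegrable a b
  rw [intervalIntegral.integral_interval_sub_interval_comm' (hi _ _) (hi _ _) (hi _ _)]
  have e1 : (∫ σ in (s + τ)..(s' + τ), g σ) = ∫ σ in s..s', g (σ + τ) :=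
    (intervalIntegral.integral_comp_add_right (f := g) (a := s) (b := s') τ).symm
  have hg2 : Continuous fun σ => g (σ + τ) := hg.comp (continuous_id.add continuous_const)
  rw [e1, ← intervalIntegral.integral_sub (hg2.intervalIntegrable _ _) (hi _ _)]
  have e2 : (s' - s) * d = ∫ _ in s..s', d := by
    rw [intervalIntegral.integral_const, smul_eq_mul]
  rw [e2]
  refine intervalIntegral.integral_mono_on h1 (by simp) ((hg2.sub hg).intervalIntegrable _ _) ?_
  intro σ hσ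
  exact h σ (h0.trans hσ.1) (hσ.2.trans h2)

theorem hCLK : StCLK := by
  intro X _ _ _ x N ε Φ hN hx hε hΦ h0 hs hmove
  letI := TopologicalSpace.metrizableSpaceMetric X
  -- a time strictly inside
  obtain ⟨τ, hτ0, hτε, hτx⟩ : ∃ τ, 0 < τ ∧ τ < ε ∧ Φ τ x ≠ x := by
    obtain ⟨s, hs0, hsε, hsx⟩ := hmove
    by_contra hcon
    push Not at hcon
    have hEq : Set.EqOn (fun u => Φ u x) (fun _ => x) (Icc 0 ε) := by
      refine Set.EqOn.of_subset_closure (s := Ioo 0 ε) (fun u hu => hcon u hu.1 hu.2) ?_ continuousOn_const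
        Ioo_subset_Icc_self ?_
      · have : ContinuousOn (fun u : ℝ => (u, x)) (Icc 0 ε) := by fun_prop
        exact hΦ.comp this (fun u hu => ⟨hu, hx⟩)
      · rw [closure_Ioo hε.ne]
    exact hsx (hEq ⟨hs0, hsε⟩)
  -- the clamped time
  set pr : ℝ → ℝ := fun σ => max 0 (min σ ε) with hpr
  have prc : Continuous pr := by fun_prop
  have prm : ∀ σ, pr σ ∈ Icc 0 ε := fun σ => ⟨le_max_left _ _, max_le hε.le (min_le_right _ _)⟩
  have pri : ∀ σ, 0 ≤ σ → σ ≤ ε → pr σ = σ := fun σ h1 h2 => by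
    simp only [hpr]
    rw [min_eq_left h2, max_eq_right h1]
  set G : X → ℝ → ℝ := fun y σ => dist (Φ (pr σ) y) x with hGd
  haveI : LocallyCompactSpace N := hN.locallyCompactSpace
  have hΦN : Continuous (fun p : N × ℝ => Φ (pr p.2) (p.1 : X)) := by
    have h1 : Continuous (fun p : N × ℝ => (pr p.2, (p.1 : X))) :=
      (prc.comp continuous_snd).prodMk (continuous_subtype_val.comp continuous_fst)
    exact hΦ.comp_continuous h1 fun p => ⟨prm _, p.1.2⟩
  have hGN : Continuous (Function.uncurry (fun (y : N) (σ : ℝ) => G y σ)) := hΦN.dist continuous_const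
  have hGy : ∀ y ∈ N, Continuous (G y) := fun y hy => by
    have := hGN.comp (Continuous.prodMk_right (⟨y, hy⟩ : N))
    exact this
  -- the embedding
  have hemb : IsOpenEmbedding (Prod.map (Subtype.val : N → X) (id : ℝ → ℝ)) :=
    hN.isOpenEmbedding_subtypeVal.prodMap IsOpenEmbedding.id
  set H : X → ℝ → ℝ := fun y s => ∫ σ in s..(s + τ), G y σ with hHd
  have hHN : Continuous (fun p : N × ℝ => H p.1 p.2) :=
    clk_cont (fun (y : N) (σ : ℝ) => G y σ) hGN τ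
  have hHc : ∀ y ∈ N, ∀ s, ContinuousAt (fun q : X × ℝ => H q.1 q.2) (y, s) := by
    intro y hy s
    have h1 : ContinuousAt ((fun q : X × ℝ => H q.1 q.2) ∘ Prod.map (Subtype.val : N → X) (id : ℝ → ℝ))
      ((⟨y, hy⟩ : N), s) := hHN.continuousAt
    exact hemb.continuousAt_iff.1 h1
  have hGc : ∀ y ∈ N, ∀ s, ContinuousAt (fun q : X × ℝ => G q.1 q.2) (y, s) := by
    intro y hy s
    have h1 : ContinuousAt ((fun q : X × ℝ => G q.1 q.2) ∘ Prod.map (Subtype.val : N → X) (id : ℝ → ℝ))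
      ((⟨y, hy⟩ : N), s) := hGN.continuousAt
    exact hemb.continuousAt_iff.1 h1
  -- the growth near the point
  set D : ℝ := dist (Φ τ x) x with hD
  have hD0 : 0 < D := dist_pos.2 hτx
  have hq : ContinuousAt (fun q : X × ℝ => G q.1 (q.2 + τ) - G q.1 q.2) (x, 0) := by
    have h1 : ContinuousAt (fun q : X × ℝ => G q.1 (q.2 + τ)) (x, 0) := by
      have h2 : ContinuousAt (fun q : X × ℝ => (q.1, q.2 + τ)) (x, (0 : ℝ)) := by fun_prop
      exact ContinuousAt.comp (g := fun q : X × ℝ => G q.1 q.2) (f := fun q : X × ℝ => (q.1, q.2 + τ))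
        (hGc x hx (0 + τ)) h2
    exact h1.sub (hGc x hx 0)
  have hq0 : G x (0 + τ) - G x 0 = D := by
    simp only [hGd]
    rw [zero_add, pri τ hτ0.le hτε.le, pri 0 le_rfl hε.le, h0 x hx, dist_self, sub_zero]
  have hev : ∀ᶠ q : X × ℝ in 𝓝 (x, 0), D / 2 < G q.1 (q.2 + τ) - G q.1 q.2 := by
    refine hq.eventually (p := fun z => D / 2 < z) ?_
    show ∀ᶠ z in 𝓝 (G x (0 + τ) - G x 0), D / 2 < z
    rw [hq0]
    exact lt_mem_nhds (by linarith)
  rw [nhds_prod_eq, Filter.eventually_prod_iff] at hev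
  obtain ⟨pa, hpa, pb, hpb, hab⟩ := hev
  obtain ⟨N', hN'1, hN'2, hN'3⟩ := mem_nhds_iff.1 hpa
  obtain ⟨e0, he0, he1⟩ := Metric.mem_nhds_iff.1 hpb
  set ε₃ : ℝ := min (e0 / 2) ((ε - τ) / 2) with hε₃
  have hε₃0 : 0 < ε₃ := lt_min (by linarith) (by linarith)
  have hε₃1 : ε₃ ≤ e0 / 2 := min_le_left _ _
  have hε₃2 : ε₃ ≤ (ε - τ) / 2 := min_le_right _ _
  set N₂ : Set X := N ∩ N' with hN₂
  have hN₂o : IsOpen N₂ := hN.inter hN'2
  have hN₂N : ∀ y ∈ N₂, y ∈ N := fun y hy => hy.1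
  have hgrow : ∀ y ∈ N₂, ∀ s s', 0 ≤ s → s ≤ s' → s' ≤ ε₃ → (s' - s) * (D / 2) ≤ H y s' - H y s := by
    intro y hy s s' h1 h2 h3
    refine clk_grow (hGy y hy.1) (e := ε₃) ?_ h1 h2 h3
    intro u hu0 hu1
    refine (hab (hN'1 hy.2) (he1 ?_)).le
    rw [Metric.mem_ball, Real.dist_eq, sub_zero, abs_of_nonneg hu0]
    linarith
  set ε₂ : ℝ := ε₃ * D / 4 with hε₂
  have hε₂0 : 0 < ε₂ := by positivity
  -- the solution
  have hex : ∀ y ∈ N₂, ∀ c, 0 ≤ c → c ≤ ε₂ → ∃ σ, 0 ≤ σ ∧ σ ≤ ε₃ ∧ H y σ = H y 0 + c := by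
    intro y hy c hc0 hc1
    have hcont : ContinuousOn (H y) (Icc 0 ε₃) := by
      intro s _
      have h2 : ContinuousAt (fun s : ℝ => (y, s)) s := by fun_prop
      exact (ContinuousAt.comp (g := fun q : X × ℝ => H q.1 q.2) (f := fun s : ℝ => (y, s))
        (hHc y hy.1 s) h2).continuousWithinAt
    have h3 := hgrow y hy 0 ε₃ le_rfl hε₃0.le le_rfl
    have h4 : H y 0 + c ∈ Icc (H y 0) (H y ε₃) := by
      constructor
      · linarith
      · have : c ≤ (ε₃ - 0) * (D / 2) := by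
          refine hc1.trans ?_
          rw [hε₂]
          nlinarith [mul_pos hε₃0 hD0]
        linarith
    obtain ⟨σ, hσ, hσe⟩ := intermediate_value_Icc hε₃0.le hcont h4
    exact ⟨σ, hσ.1, hσ.2, hσe⟩
  have huniq : ∀ y ∈ N₂, ∀ a b, 0 ≤ a → a ≤ ε₃ → 0 ≤ b → b ≤ ε₃ → |a - b| * (D / 2) ≤ |H y a - H y b| := by
    intro y hy a b ha0 ha1 hb0 hb1
    rcases le_total a b with h | h
    · have h1 := hgrow y hy a b ha0 h hb1
      rw [abs_sub_comm, abs_sub_comm (H y a)]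
      rw [abs_of_nonneg (by linarith : (0 : ℝ) ≤ b - a)]
      exact h1.trans (le_abs_self _)
    · have h1 := hgrow y hy b a hb0 h ha1
      rw [abs_of_nonneg (by linarith : (0 : ℝ) ≤ a - b)]
      exact h1.trans (le_abs_self _)
  classical
  set sg : X → ℝ → ℝ := fun y c => if h : y ∈ N₂ ∧ 0 ≤ c ∧ c ≤ ε₂ then (hex y h.1 c h.2.1 h.2.2).choose else 0 with hsg
  have sg_spec : ∀ y ∈ N₂, ∀ c, 0 ≤ c → c ≤ ε₂ → 0 ≤ sg y c ∧ sg y c ≤ ε₃ ∧ H y (sg y c) = H y 0 + c := by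
    intro y hy c hc0 hc1
    simp only [hsg]
    rw [dif_pos ⟨hy, hc0, hc1⟩]
    exact (hex y hy c hc0 hc1).choose_spec
  have sg_half : ∀ y ∈ N₂, ∀ c, 0 ≤ c → c ≤ ε₂ → sg y c ≤ ε₃ / 2 := by
    intro y hy c hc0 hc1
    obtain ⟨h1, h2, h3⟩ := sg_spec y hy c hc0 hc1
    have h4 := hgrow y hy 0 (sg y c) le_rfl h1 h2
    rw [h3] at h4
    have h5 : sg y c * (D / 2) ≤ ε₃ / 2 * (D / 2) := by
      have : (sg y c - 0) * (D / 2) ≤ c := by linarith
      calc sg y c * (D / 2) = (sg y c - 0) * (D / 2) := by ring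
        _ ≤ c := this
        _ ≤ ε₂ := hc1
        _ = ε₃ / 2 * (D / 2) := by rw [hε₂]; ring
    exact le_of_mul_le_mul_right h5 (by linarith)
  have sg_uniq : ∀ y ∈ N₂, ∀ c, 0 ≤ c → c ≤ ε₂ → ∀ a, 0 ≤ a → a ≤ ε₃ → H y a = H y 0 + c → a = sg y c := by
    intro y hy c hc0 hc1 a ha0 ha1 hae
    obtain ⟨h1, h2, h3⟩ := sg_spec y hy c hc0 hc1
    have h4 := huniq y hy a (sg y c) ha0 ha1 h1 h2
    rw [hae, h3, sub_self, abs_zero] at h4
    have h5 : |a - sg y c| ≤ 0 := by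
      by_contra hcon
      push Not at hcon
      have := mul_pos hcon (by linarith : 0 < D / 2)
      linarith
    have h6 := abs_nonpos_iff.1 h5
    linarith
  have sg_cont : ContinuousOn (fun p : ℝ × X => sg p.2 p.1) (Icc 0 ε₂ ×ˢ N₂) := by
    rintro ⟨c₀, y₀⟩ ⟨hc₀, hy₀⟩
    simp only at hc₀ hy₀
    obtain ⟨h1, h2, h3⟩ := sg_spec y₀ hy₀ c₀ hc₀.1 hc₀.2
    set σ₀ := sg y₀ c₀ with hσ₀
    -- the bound
    have hlim : Filter.Tendsto (fun p : ℝ × X => (2 / D) * |H p.2 0 + p.1 - H p.2 σ₀|)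
        (𝓝[Icc 0 ε₂ ×ˢ N₂] (c₀, y₀)) (𝓝 0) := by
      have ha : ContinuousAt (fun p : ℝ × X => H p.2 0) (c₀, y₀) := by
        have h2 : ContinuousAt (fun p : ℝ × X => (p.2, (0 : ℝ))) (c₀, y₀) := by fun_prop
        exact ContinuousAt.comp (g := fun q : X × ℝ => H q.1 q.2) (f := fun p : ℝ × X => (p.2, (0 : ℝ)))
          (hHc y₀ hy₀.1 0) h2
      have hb : ContinuousAt (fun p : ℝ × X => H p.2 σ₀) (c₀, y₀) := by
        have h2 : ContinuousAt (fun p : ℝ × X => (p.2, σ₀)) (c₀, y₀) := by fun_prop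
        exact ContinuousAt.comp (g := fun q : X × ℝ => H q.1 q.2) (f := fun p : ℝ × X => (p.2, σ₀))
          (hHc y₀ hy₀.1 σ₀) h2
      have hc : ContinuousAt (fun p : ℝ × X => p.1) (c₀, y₀) := continuousAt_fst
      have hd : ContinuousAt (fun p : ℝ × X => (2 / D) * |H p.2 0 + p.1 - H p.2 σ₀|) (c₀, y₀) :=
        continuousAt_const.mul (((ha.add hc).sub hb).abs)
      have he : (2 / D) * |H y₀ 0 + c₀ - H y₀ σ₀| = 0 := by rw [h3, sub_self, abs_zero, mul_zero]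
      have hf := hd.tendsto
      simp only at hf
      rw [he] at hf
      exact hf.mono_left nhdsWithin_le_nhds
    refine tendsto_iff_dist_tendsto_zero.2 (squeeze_zero' ?_ ?_ hlim)
    · exact Filter.Eventually.of_forall fun _ => dist_nonneg
    · filter_upwards [self_mem_nhdsWithin] with p hp
      obtain ⟨hpc, hpy⟩ := hp
      obtain ⟨k1, k2, k3⟩ := sg_spec p.2 hpy p.1 hpc.1 hpc.2
      have k4 := huniq p.2 hpy (sg p.2 p.1) σ₀ k1 k2 h1 h2
      rw [k3] at k4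
      rw [Real.dist_eq]
      have k5 : |sg p.2 p.1 - σ₀| = (2 / D) * (|sg p.2 p.1 - σ₀| * (D / 2)) := by
        field_simp
      show |sg p.2 p.1 - σ₀| ≤ _
      rw [k5]
      exact mul_le_mul_of_nonneg_left k4 (by positivity)
  -- the shift identity
  have hshift : ∀ y ∈ N, ∀ σ', 0 ≤ σ' → σ' ≤ ε → Φ σ' y ∈ N → ∀ s, 0 ≤ s → s + τ + σ' ≤ ε →
      H (Φ σ' y) s = H y (s + σ') := by
    intro y hy σ' h1 h1' h2 s h3 h4
    have e1 : ∀ u ∈ uIcc s (s + τ), G (Φ σ' y) u = G y (u + σ') := by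
      intro u hu
      rw [uIcc_of_le (by linarith)] at hu
      have hu0 : 0 ≤ u := h3.trans hu.1
      have hu1 : u + σ' ≤ ε := by linarith [hu.2]
      simp only [hGd]
      rw [pri u hu0 (by linarith), pri (u + σ') (by linarith) hu1, hs y hy u σ' hu0 h1 hu1 h2]
    show (∫ σ in s..(s + τ), G (Φ σ' y) σ) = ∫ σ in (s + σ')..(s + σ' + τ), G y σ
    rw [intervalIntegral.integral_congr e1]
    have e2 := intervalIntegral.integral_comp_add_right (f := G y) (a := s) (b := s + τ) σ'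
    rw [e2]
    congr 1
    ring
  refine ⟨N₂, ε₂, fun y => -H y 0, fun c y => Φ (sg y c) y, hN₂o, ⟨hx, hN'3⟩, hε₂0, ?_, ?_, ?_, ?_, ?_⟩
  · intro y hy
    have h2 : ContinuousAt (fun y : X => (y, (0 : ℝ))) y := by fun_prop
    exact (ContinuousAt.comp (g := fun q : X × ℝ => H q.1 q.2) (f := fun y : X => (y, (0 : ℝ)))
      (hHc y hy.1 0) h2).neg.continuousWithinAt
  · have h1 : ContinuousOn (fun p : ℝ × X => (sg p.2 p.1, p.2)) (Icc 0 ε₂ ×ˢ N₂) :=
      sg_cont.prodMk continuousOn_snd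
    refine hΦ.comp h1 ?_
    rintro ⟨c, y⟩ ⟨hc, hy⟩
    obtain ⟨k1, k2, k3⟩ := sg_spec y hy c hc.1 hc.2
    exact ⟨⟨k1, by show sg y c ≤ ε; linarith⟩, hy.1⟩
  · intro y hy
    have h1 := sg_uniq y hy 0 le_rfl hε₂0.le 0 le_rfl hε₃0.le (by ring)
    show Φ (sg y 0) y = y
    rw [← h1]
    exact h0 y hy.1
  · intro y hy s s' hs0 hs'0 hss hy'
    have hs'1 : s' ≤ ε₂ := by linarith
    have hs1 : s ≤ ε₂ := by linarith
    obtain ⟨k1, k2, k3⟩ := sg_spec y hy s' hs'0 hs'1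
    have k4 := sg_half y hy s' hs'0 hs'1
    obtain ⟨l1, l2, l3⟩ := sg_spec (Φ (sg y s') y) hy' s hs0 hs1
    have l4 := sg_half (Φ (sg y s') y) hy' s hs0 hs1
    have hyN : Φ (sg y s') y ∈ N := hN₂N _ hy'
    have m1 := hshift y hy.1 (sg y s') k1 (by linarith) hyN 0 le_rfl (by linarith)
    have m2 := hshift y hy.1 (sg y s') k1 (by linarith) hyN (sg (Φ (sg y s') y) s) l1 (by linarith)
    rw [zero_add, k3] at m1
    rw [l3, m1] at m2
    have m3 := sg_uniq y hy (s + s') (by linarith) hss (sg (Φ (sg y s') y) s + sg y s') (by linarith) (by linarith)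
      (by rw [← m2]; ring)
    show Φ (sg y (s + s')) y = Φ (sg (Φ (sg y s') y) s) (Φ (sg y s') y)
    rw [← m3]
    exact hs y hy.1 _ _ l1 k1 (by linarith) hyN
  · intro y hy s hs0 hs1 hy'
    obtain ⟨k1, k2, k3⟩ := sg_spec y hy s hs0 hs1
    have k4 := sg_half y hy s hs0 hs1
    have m1 := hshift y hy.1 (sg y s) k1 (by linarith) (hN₂N _ hy') 0 le_rfl (by linarith)
    rw [zero_add, k3] at m1
    show -H (Φ (sg y s) y) 0 = -H y 0 - s
    rw [m1]
    ring

end Pool.Agent.Helper25.SF
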